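import Pool.Agent.H2.ST.Targets

/-! Module FNB: symplectic coordinates when exactly one weight is zero. -/

set_option autoImplicit false

namespace Pool.Agent.H35.ST2

open Pool.Agent.H2.ST MvPolynomial

theorem pf_FNB (h1 : T_NPS) (h2 : T_SPG) (h3 : T_KFC) (h4 : T_PHI) (h5 : T_PLN) : T_FNB := by
  classical
  intro k _ _ _ m d W w π u v c i0 S hdm hi0 hne
  have hn := h1 k m _ W w π u v c S
  obtain ⟨hgen, hbd⟩ := h2 k m _ W w π u v c S hn
  obtain ⟨hfc, hK0⟩ := h3 k m _ W w π u v c S hn
  obtain ⟨φ, hφK, hφc, hφn⟩ := h4 k m d W w π u v c S hn (by omega)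
  have hiff : ∀ i, w i ≠ 0 ↔ i ≠ i0 := by
    intro i
    constructor
    · intro h h'
      rw [h'] at h
      exact h hi0
    · exact hne i
  have hcard : Nat.card {i // w i ≠ 0} = m - 1 := by
    rw [Nat.card_congr (Equiv.subtypeEquivRight hiff), Nat.card_eq_fintype_card]
    have := Set.card_ne_eq (α := Fin m) i0
    rw [Fintype.card_fin] at this
    exact this
  have hm1 : 1 ≤ m := by omega
  have hua : ∀ i, w i ≠ 0 → u i ∈ act w u v := fun i hi => ⟨i, hi, Or.inl rfl⟩
  have hva : ∀ i, w i ≠ 0 → v i ∈ act w u v := fun i hi => ⟨i, hi, Or.inr rfl⟩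
  have hP : Pln (Cen (act w u v)) φ := by
    refine ⟨hfc, fun a ha b hb => Cen_br ha hb, fun f hf hai => ?_, fun p hp hd => ?_, hφK,
      hφc, hφn⟩
    · have h6 := hbd 3 f hf hai
      rw [hcard] at h6
      omega
    · apply const_of_dvd
      intro s
      refine Algebra.adjoin_induction (p := fun a _ => p ∣ br p a) ?_ ?_ ?_ ?_ (hgen (X s))
      · rintro a (ha | ha)
        · exact hd a ha
        · rw [hp a ha]
          exact dvd_zero p
      · intro r
        rw [MvPolynomial.algebraMap_eq, br_C]
        exact dvd_zero p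
      · intro a b _ _ ha hb
        rw [br_add]
        exact dvd_add ha hb
      · intro a b _ _ ha hb
        rw [br_mul]
        exact dvd_add (Dvd.dvd.mul_left hb a) (Dvd.dvd.mul_left ha b)
  obtain ⟨p, hp, s, hs, hps, hadj⟩ := h5 k m (Cen (act w u v)) φ hP
  have hzl : ∀ q ∈ Cen (act w u v), ∀ i, w i ≠ 0 → br q (u i) = 0 ∧ br q (v i) = 0 ∧
      br (u i) q = 0 ∧ br (v i) q = 0 := by
    intro q hq i hi
    have e1 := hq _ (hua i hi)
    have e2 := hq _ (hva i hi)
    refine ⟨e1, e2, ?_, ?_⟩
    · rw [br_anti, e1, neg_zero]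
    · rw [br_anti, e2, neg_zero]
  refine ⟨Sum.elim (fun i => if i = i0 then p else u i)
    (fun i => if i = i0 then s else (-(c i)⁻¹) • v i), ?_, ?_, ?_, ?_, ?_, ?_⟩
  · intro i
    simp only [Sum.elim_inl]
    by_cases hi : i = i0
    · rw [if_pos hi, hi, hi0]
      exact hK0 p hp
    · rw [if_neg hi]
      exact (S.par i (hne i hi)).hu
  · intro i
    simp only [Sum.elim_inr]
    by_cases hi : i = i0
    · rw [if_pos hi, hi, hi0, neg_zero]
      exact hK0 s hs
    · rw [if_neg hi]
      exact (W (-w i)).smul_mem _ (S.par i (hne i hi)).hv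
  · intro i j
    simp only [Sum.elim_inl, Sum.elim_inr]
    by_cases hi : i = i0
    · by_cases hj : j = i0
      · rw [if_pos hi, if_pos hj, if_pos (hi.trans hj.symm), hps]
      · rw [if_pos hi, if_neg hj, if_neg (fun h => hj (h.symm.trans hi)), br_smul,
          (hzl p hp j (hne j hj)).2.1, smul_zero]
    · by_cases hj : j = i0
      · rw [if_neg hi, if_pos hj, if_neg (fun h => hi (h.trans hj)),
          (hzl s hs i (hne i hi)).2.2.1]
      · rw [if_neg hi, if_neg hj, br_smul]
        by_cases hij : i = j
        · rw [if_pos hij, ← hij]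
          have e1 := (S.par i (hne i hi)).vu
          have e2 := (S.par i (hne i hi)).hc
          rw [br_anti, e1, smul_neg, neg_smul, neg_neg, MvPolynomial.smul_eq_C_mul, ← C_mul,
            inv_mul_cancel₀ e2, C_1]
        · rw [if_neg hij, S.uv i j (hne i hi) (hne j hj) hij, smul_zero]
  · intro i j
    simp only [Sum.elim_inl]
    by_cases hi : i = i0
    · by_cases hj : j = i0
      · rw [if_pos hi, if_pos hj, br_self]
      · rw [if_pos hi, if_neg hj, (hzl p hp j (hne j hj)).1]
    · by_cases hj : j = i0
      · rw [if_neg hi, if_pos hj, (hzl p hp i (hne i hi)).2.2.1]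
      · rw [if_neg hi, if_neg hj, S.uu i j (hne i hi) (hne j hj)]
  · intro i j
    simp only [Sum.elim_inr]
    by_cases hi : i = i0
    · by_cases hj : j = i0
      · rw [if_pos hi, if_pos hj, br_self]
      · rw [if_pos hi, if_neg hj, br_smul, (hzl s hs j (hne j hj)).2.1, smul_zero]
    · by_cases hj : j = i0
      · rw [if_neg hi, if_pos hj, smul_br, (hzl s hs i (hne i hi)).2.2.2, smul_zero]
      · rw [if_neg hi, if_neg hj, br_smul, smul_br, S.vv i j (hne i hi) (hne j hj), smul_zero,
          smul_zero]
  · intro f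
    obtain ⟨z, hz⟩ : ∃ z : Fin m ⊕ Fin m → Pol k m, z = Sum.elim
      (fun i => if i = i0 then p else u i)
      (fun i => if i = i0 then s else (-(c i)⁻¹) • v i) := ⟨_, rfl⟩
    rw [← hz]
    have hr : ∀ x, z x ∈ Algebra.adjoin k (Set.range z) := fun x =>
      Algebra.subset_adjoin ⟨x, rfl⟩
    have hpz : p ∈ Algebra.adjoin k (Set.range z) := by
      have := hr (Sum.inl i0)
      rw [hz] at this
      simp only [Sum.elim_inl, if_true] at this
      rw [hz]
      exact this
    have hsz : s ∈ Algebra.adjoin k (Set.range z) := by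
      have := hr (Sum.inr i0)
      rw [hz] at this
      simp only [Sum.elim_inr, if_true] at this
      rw [hz]
      exact this
    have hle : Algebra.adjoin k ((Cen (act w u v) : Set (Pol k m)) ∪ act w u v) ≤
        Algebra.adjoin k (Set.range z) := by
      refine Algebra.adjoin_le ?_
      rintro g (hg | ⟨i, hi, hg | hg⟩)
      · have h6 : Algebra.adjoin k ({p, s} : Set (Pol k m)) ≤
            Algebra.adjoin k (Set.range z) := by
          refine Algebra.adjoin_le ?_
          rintro x (hx | hx)
          · rw [hx]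
            exact hpz
          · rw [Set.mem_singleton_iff.1 hx]
            exact hsz
        exact h6 (hadj g hg)
      · have h6 := hr (Sum.inl i)
        have h7 : z (Sum.inl i) = u i := by
          rw [hz]
          simp only [Sum.elim_inl]
          rw [if_neg ((hiff i).1 hi)]
        rw [h7] at h6
        rw [hg]
        exact h6
      · have h6 := hr (Sum.inr i)
        have h7 : z (Sum.inr i) = (-(c i)⁻¹) • v i := by
          rw [hz]
          simp only [Sum.elim_inr]
          rw [if_neg ((hiff i).1 hi)]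
        rw [h7] at h6
        have h8 := (Algebra.adjoin k (Set.range z)).smul_mem h6 (-(c i))
        have e2 := (S.par i hi).hc
        rw [smul_smul, neg_mul_neg, mul_inv_cancel₀ e2, one_smul] at h8
        rw [hg]
        exact h8
    exact hle (hgen f)

end Pool.Agent.H35.ST2
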