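import Pool.Agent.H2.ST.Targets

/-! Module SLA: the invariants are polynomials in the moment map over `Ku`. -/

set_option autoImplicit false

namespace Pool.Agent.H35.ST2

open Pool.Agent.H2.ST MvPolynomial

theorem pf_SLA (h1 : T_SLC) (h2 : T_TRC) : T_SLA := by
  intro k _ _ m W r u v H M
  have G : Gr W := M.toOne.toPGr.toGr
  have hu0 : u ≠ 0 := M.pu.ne_zero
  have hex : ∀ f : zeroPart G, ∃ g : zeroPart G, br (f : Pol k m) u = u * (g : Pol k m) := by
    intro f
    have h3 : br (f : Pol k m) u ∈ W (0 + r) := M.pbr 0 r _ _ f.2 M.hu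
    rw [zero_add] at h3
    obtain ⟨g, hg, he⟩ := M.du 1 (br (f : Pol k m) u) (by
      rw [Nat.cast_one, mul_one]
      exact h3)
    exact ⟨⟨g, hg⟩, by rw [he, pow_one]⟩
  choose D hD using hex
  have hcan : ∀ a b : zeroPart G, u * (a : Pol k m) = u * (b : Pol k m) → a = b := by
    intro a b h
    exact Subtype.ext (mul_left_cancel₀ hu0 h)
  have hadd : ∀ a b, D (a + b) = D a + D b := by
    intro a b
    apply hcan
    rw [← hD, AddMemClass.coe_add, AddMemClass.coe_add, add_br, hD, hD, mul_add]
  have hmul : ∀ a b, D (a * b) = a * D b + b * D a := by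
    intro a b
    apply hcan
    rw [← hD, AddMemClass.coe_add, MulMemClass.coe_mul, MulMemClass.coe_mul, MulMemClass.coe_mul,
      mul_br, hD, hD]
    ring
  have h0 : D 0 = 0 := by
    have := hadd 0 0
    rw [add_zero] at this
    have h4 : D 0 + 0 = D 0 + D 0 := by rw [add_zero]; exact this
    exact (add_left_cancel h4).symm
  have hnil : ∀ (n : ℕ) (a : zeroPart G), (a : Pol k m).totalDegree ≤ n →
      ∃ j : ℕ, D^[j] a = 0 := by
    intro n
    induction n with
    | zero =>
      intro a ha
      refine ⟨1, ?_⟩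
      rw [Function.iterate_one]
      by_contra hne
      have hne' : br (a : Pol k m) u ≠ 0 := by
        rw [hD]
        refine mul_ne_zero hu0 fun h => hne (Subtype.ext h)
      have h3 := deg_br _ _ hne'
      rw [hD, totalDegree_mul_of_isDomain hu0 (fun h => hne (Subtype.ext h))] at h3
      omega
    | succ n ih =>
      intro a ha
      by_cases hne : D a = 0
      · exact ⟨1, by rw [Function.iterate_one]; exact hne⟩
      · have hne2 : (D a : Pol k m) ≠ 0 := fun h => hne (Subtype.ext h)
        have hne' : br (a : Pol k m) u ≠ 0 := by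
          rw [hD]
          exact mul_ne_zero hu0 hne2
        have h3 := deg_br _ _ hne'
        rw [hD, totalDegree_mul_of_isDomain hu0 hne2] at h3
        obtain ⟨j, hj⟩ := ih (D a) (by omega)
        exact ⟨j + 1, by rw [Function.iterate_succ_apply]; exact hj⟩
  have hL : LND D := ⟨hadd, hmul, fun a => hnil _ a le_rfl⟩
  have hDH : D ⟨H, M.H0⟩ = 1 := by
    apply hcan
    rw [← hD]
    have h3 := M.HE 1 u (by rw [mul_one]; exact M.hu)
    rw [Int.cast_one, one_smul] at h3
    rw [OneMemClass.coe_one, mul_one]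
    exact h3
  have hD1 : D 1 = 0 := by
    have h3 := hmul 1 1
    rw [one_mul, one_mul] at h3
    have h4 : D 1 + 0 = D 1 + D 1 := by rw [add_zero]; exact h3
    exact (add_left_cancel h4).symm
  have hKu : ∀ f : zeroPart G, D f = 0 ↔ (f : Pol k m) ∈ Ku W u := by
    intro f
    constructor
    · intro h
      refine ⟨f.2, ?_⟩
      rw [hD, h, ZeroMemClass.coe_zero, mul_zero]
    · intro h
      have h3 := hD f
      rw [h.2] at h3
      apply hcan
      rw [← h3, ZeroMemClass.coe_zero, mul_zero]
  let ι : zeroPart G →+* Pol k m := (zeroPart G).val.toRingHom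
  have hι : ∀ f : zeroPart G, ι f = (f : Pol k m) := fun f => rfl
  constructor
  · intro f hf
    letI : Algebra ℚ (zeroPart G) := ((algebraMap k (zeroPart G)).comp (algebraMap ℚ k)).toAlgebra
    obtain ⟨P, hP, he⟩ := h1 (zeroPart G) D hL ⟨H, M.H0⟩ hDH ⟨f, hf⟩
    refine ⟨P.map ι, fun i => ?_, ?_⟩
    · rw [Polynomial.coeff_map, hι]
      exact (hKu _).1 (hP i)
    · rw [Polynomial.eval_map]
      have h3 : Polynomial.eval₂ ι (ι ⟨H, M.H0⟩) P = ι (P.eval ⟨H, M.H0⟩) :=
        Polynomial.eval₂_at_apply ι _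
      rw [he] at h3
      exact h3
  · intro P hP he
    haveI : CharZero (zeroPart G) :=
      charZero_of_injective_algebraMap (algebraMap k (zeroPart G)).injective
    have hl : P ∈ Polynomial.lifts ι := by
      rw [Polynomial.lifts_iff_coeff_lifts]
      intro n
      exact ⟨⟨P.coeff n, (hP n).1⟩, rfl⟩
    obtain ⟨P₀, hP₀⟩ := (Polynomial.mem_lifts P).1 hl
    have hc : ∀ i, ((P₀.coeff i : zeroPart G) : Pol k m) = P.coeff i := by
      intro i
      rw [← hP₀, Polynomial.coeff_map, hι]
    have h3 : P₀ = 0 := by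
      refine h2 (zeroPart G) D hL ⟨H, M.H0⟩ ?_ ?_ P₀ (fun i => ?_) ?_
      · rw [hDH]
        exact one_ne_zero
      · rw [hDH, hD1]
      · rw [hKu, hc]
        exact hP i
      · apply Subtype.ext
        rw [← hP₀, Polynomial.eval_map] at he
        have h4 : Polynomial.eval₂ ι (ι ⟨H, M.H0⟩) P₀ = ι (P₀.eval ⟨H, M.H0⟩) :=
          Polynomial.eval₂_at_apply ι _
        have h5 : ι (P₀.eval ⟨H, M.H0⟩) = 0 := by
          rw [← h4]
          exact he
        exact h5
    rw [← hP₀, h3, Polynomial.map_zero]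

end Pool.Agent.H35.ST2
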